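import Pool.Agent.Helper27.TRB.Goals
import Pool.Agent.Helper15.RBC.NULR

/-! # TRB: the limit direction is in the nullity of the curvature (copy of NULR) -/

open Complex Metric Set Filter Topology MeasureTheory
open scoped ContDiff ComplexConjugate ComplexOrder Manifold Matrix

namespace Pool.Agent.Helper20.TRB

open Pool.Agent.Helper95.Lin Pool.Agent.Helper16.Abund Pool.Agent.Helper92.Orb
  Pool.Agent.Helper10.SP Pool.Agent.Helper95.RK Pool.Agent.Helper57.HS
  Pool.Agent.Helper15.HS Pool.Agent.Helper15.GS Pool.Agent.Helper57.RBC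
open Pool.Agent.Helper9.SP (cdb_congr)
open Pool.Agent.Helper25.HS (TT TT_add1 TT_smul1 TT_smul2 TT_smul3 TT_smul4 TT_conj polar psd_small)
open Pool.Agent.Helper15.RBC (TT_P1 TT_P2 TT_single TT_swap TT_split tor_crv)

variable {n : ℕ}

/-- TNUL. -/
theorem tnul (hWI : S_WIRT) (hM : S_MCAL) (hC : S_CSY) (hPAR : S_PARP) :
    Pool.Agent.Helper27.TRB.S_TNUL := by
  intro n W hW h P A hpos hs hRBC hP hPP hPH htor hAP hAH hAc hcr x hx
  obtain ⟨c1, c2, -⟩ := hC W hW h hpos hs x hx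
  have hhx := hpos x hx
  have hhu : IsUnit (h x).det := isUnit_iff_ne_zero.2 hhx.det_pos.ne'
  have hG : ((h x)⁻¹).PosDef := hhx.inv
  have htc := fun m i j l => tor_crv hWI hM hC hW hpos hs hP htor hx m i j l
  set R : Fin n → Fin n → Fin n → Fin n → ℂ := crv h x with hR
  -- exchange of the projector
  have hex0 : ∀ i j l m, ∑ p, P x i p * R p j l m = ∑ q, R i q l m * conj (P x j q) := by
    intro i j l m
    have e1 := (hPAR W hW h P hpos hs hP hPH x hx l).2.2 m
    have e2 : ∀ p q, R p q l m = - (cdbM m (Gam h l) x * h x) p q := fun p q => c1 p q l m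
    have e3 : P x * (cdbM m (Gam h l) x * h x) = (cdbM m (Gam h l) x * h x) * (P x)ᴴ := by
      rw [← Matrix.mul_assoc, ← e1, Matrix.mul_assoc, hPH x hx, Matrix.mul_assoc]
    have e4 := congrFun (congrFun e3 i) j
    rw [Matrix.mul_apply, Matrix.mul_apply] at e4
    simp only [e2, mul_neg, neg_mul, Finset.sum_neg_distrib]
    rw [e4]
    rfl
  have hex : ∀ a b c d : Fin n → ℂ, TT R (a ᵥ* P x) b c d = TT R a (b ᵥ* P x) c d := by
    intro a b c d
    rw [TT_P1, TT_P2]
    simp only [hex0]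
  have ht : ∀ a b c d : Fin n → ℂ, TT R (a ᵥ* P x) b c d = TT R c b (a ᵥ* P x) d := by
    intro a b c d
    rw [← TT_swap R (a ᵥ* P x) b c d, TT_P1, TT_P1]
    congr 1
    funext i j k l
    have e1 := htc i k j l
    simp only [mul_sub, Finset.sum_sub_distrib] at e1
    exact (sub_eq_zero.1 e1).symm
  obtain ⟨f1, f2, f3, t2⟩ := TT_split (hPP x hx) c2 hex ht
  have fall : ∀ a b c d : Fin n → ℂ, TT R (a ᵥ* P x) b c d =
      TT R (a ᵥ* P x) (b ᵥ* P x) (c ᵥ* P x) (d ᵥ* P x) := by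
    intro a b c d
    rw [f1 a b c d, f2 a (b ᵥ* P x) c d, f3 a (b ᵥ* P x) (c ᵥ* P x) d]
  -- the restricted tensor
  set R' : Fin n → Fin n → Fin n → Fin n → ℂ := fun i j k l => ∑ p, P x i p * R p j k l with hR'
  have hTT : ∀ a b c d : Fin n → ℂ, TT R' a b c d = TT R (a ᵥ* P x) b c d := by
    intro a b c d
    rw [TT_P1]
  have h13 : ∀ i j k l, R' i j k l = R' k j i l := by
    intro i j k l
    rw [← TT_single R' i j k l, ← TT_single R' k j i l, hTT, hTT, f2, ht, ← f2]
  have h24 : ∀ i j k l, R' i j k l = R' i l k j := by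
    intro i j k l
    rw [← TT_single R' i j k l, ← TT_single R' i l k j, hTT, hTT, f1, t2, ← f3]
  have hneg : ∀ v, (Pool.Agent.Helper16.HS.SGNP.QF R' v v v v).re ≤ 0 := by
    intro v
    have e1 : Pool.Agent.Helper16.HS.SGNP.QF R' v v v v = TT R' v v v v := rfl
    rw [e1, hTT, fall]
    exact hRBC x hx (v ᵥ* P x) (by rw [Matrix.vecMul_vecMul, hPP x hx])
  -- the form `X = h⁻¹ A`
  set X : Matrix (Fin n) (Fin n) ℂ := (h x)⁻¹ * A x with hX
  have hXP : X * P x = X := by rw [hX, Matrix.mul_assoc, hAP x hx]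
  have hpair : ∑ i, ∑ j, ∑ k, ∑ l, X j i * X l k * R' i j k l = crvP h X X x := by
    have e1 : ∀ j p, X j p = ∑ i, X j i * P x i p := by
      intro j p
      rw [← Matrix.mul_apply, hXP]
    have e2 : ∑ i, ∑ j, ∑ k, ∑ l, X j i * X l k * R' i j k l =
        ∑ i, ∑ j, ∑ k, ∑ l, ∑ p, X j i * P x i p * X l k * R p j k l := by
      refine Finset.sum_congr rfl fun i _ => Finset.sum_congr rfl fun j _ =>
        Finset.sum_congr rfl fun k _ => Finset.sum_congr rfl fun l _ => ?_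
      simp only [hR', Finset.mul_sum]
      refine Finset.sum_congr rfl fun p _ => ?_
      ring
    have e3 : crvP h X X x = ∑ p, ∑ j, ∑ k, ∑ l, ∑ i, X j i * P x i p * X l k * R p j k l := by
      unfold crvP
      refine Finset.sum_congr rfl fun p _ => Finset.sum_congr rfl fun j _ =>
        Finset.sum_congr rfl fun k _ => Finset.sum_congr rfl fun l _ => ?_
      rw [← Finset.sum_mul, ← Finset.sum_mul, ← e1]
    rw [e2, e3]
    -- move the sum over `p` to the front and the sum over `i` to the end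
    calc ∑ i, ∑ j, ∑ k, ∑ l, ∑ p, X j i * P x i p * X l k * R p j k l
        = ∑ i, ∑ j, ∑ k, ∑ p, ∑ l, X j i * P x i p * X l k * R p j k l := by
          refine Finset.sum_congr rfl fun i _ => Finset.sum_congr rfl fun j _ =>
            Finset.sum_congr rfl fun k _ => Finset.sum_comm
      _ = ∑ i, ∑ j, ∑ p, ∑ k, ∑ l, X j i * P x i p * X l k * R p j k l := by
          refine Finset.sum_congr rfl fun i _ => Finset.sum_congr rfl fun j _ => Finset.sum_comm
      _ = ∑ i, ∑ p, ∑ j, ∑ k, ∑ l, X j i * P x i p * X l k * R p j k l := by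
          refine Finset.sum_congr rfl fun i _ => Finset.sum_comm
      _ = ∑ p, ∑ i, ∑ j, ∑ k, ∑ l, X j i * P x i p * X l k * R p j k l := Finset.sum_comm
      _ = ∑ p, ∑ j, ∑ i, ∑ k, ∑ l, X j i * P x i p * X l k * R p j k l := by
          refine Finset.sum_congr rfl fun p _ => Finset.sum_comm
      _ = ∑ p, ∑ j, ∑ k, ∑ i, ∑ l, X j i * P x i p * X l k * R p j k l := by
          refine Finset.sum_congr rfl fun p _ => Finset.sum_congr rfl fun j _ => Finset.sum_comm
      _ = ∑ p, ∑ j, ∑ k, ∑ l, ∑ i, X j i * P x i p * X l k * R p j k l := by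
          refine Finset.sum_congr rfl fun p _ => Finset.sum_congr rfl fun j _ =>
            Finset.sum_congr rfl fun k _ => Finset.sum_comm
  -- the subspace
  let F : Submodule ℂ (Fin n → ℂ) :=
    { carrier := {f | f ᵥ* P x = f}
      add_mem' := fun {a b} ha hb => by
        show (a + b) ᵥ* P x = a + b
        rw [Matrix.add_vecMul, ha, hb]
      zero_mem' := Matrix.zero_vecMul _
      smul_mem' := fun z a ha => by
        show (z • a) ᵥ* P x = z • a
        rw [Matrix.smul_vecMul, ha] }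
  have hF : ∀ a : Fin n → ℂ, a ᵥ* P x ∈ F := fun a => by
    show (a ᵥ* P x) ᵥ* P x = a ᵥ* P x
    rw [Matrix.vecMul_vecMul, hPP x hx]
  -- `h⁻¹ P = Pᴴ h⁻¹ P`
  have hPi : (h x)⁻¹ * P x = (P x)ᴴ * (h x)⁻¹ := by
    have e2 : (h x)⁻¹ * (P x * h x) * (h x)⁻¹ = (h x)⁻¹ * (h x * (P x)ᴴ) * (h x)⁻¹ :=
      congrArg (fun M => (h x)⁻¹ * M * (h x)⁻¹) (hPH x hx)
    rw [Matrix.mul_assoc, Matrix.mul_assoc, Matrix.mul_nonsing_inv _ hhu, Matrix.mul_one,
      ← Matrix.mul_assoc ((h x)⁻¹) (h x), Matrix.nonsing_inv_mul _ hhu, Matrix.one_mul] at e2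
    exact e2
  have hK : (P x)ᴴ * (h x)⁻¹ * P x = (h x)⁻¹ * P x := by
    rw [← hPi, Matrix.mul_assoc, hPP x hx]
  obtain ⟨c, hc, hcpsd⟩ := hAc x hx
  -- `X - c h⁻¹ P ≥ 0`
  have hXc : (X - (c : ℂ) • ((h x)⁻¹ * P x)).PosSemidef := by
    have e1 := hcpsd.mul_mul_conjTranspose_same ((h x)⁻¹)
    have e2 : (h x)⁻¹ * (A x * h x - (c : ℂ) • (P x * h x)) * ((h x)⁻¹)ᴴ =
        X - (c : ℂ) • ((h x)⁻¹ * P x) := by
      rw [hG.isHermitian.eq, Matrix.mul_sub, Matrix.sub_mul, Matrix.mul_smul, Matrix.smul_mul]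
      congr 1
      · rw [← Matrix.mul_assoc, Matrix.mul_assoc, Matrix.mul_nonsing_inv _ hhu, Matrix.mul_one]
      · rw [← Matrix.mul_assoc ((h x)⁻¹) (P x), Matrix.mul_assoc, Matrix.mul_nonsing_inv _ hhu,
          Matrix.mul_one]
    rw [e2] at e1
    exact e1
  have hq : ∀ f ∈ F, TT R' f f f f = 0 := by
    intro f hf
    have hfP : f ᵥ* P x = f := hf
    obtain ⟨d, hd, hpsd⟩ := psd_small hG f hfP
    rw [hK] at hpsd
    set e : ℝ := Real.sqrt c * d with he
    have hepos : 0 < e := mul_pos (Real.sqrt_pos.2 hc) hd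
    have hP1 : (X - Matrix.vecMulVec (fun i => conj (((e : ℂ) • f) i)) ((e : ℂ) • f)).PosSemidef := by
      have hc' : (0 : ℂ) ≤ (c : ℂ) := by exact_mod_cast hc.le
      have e1 := hXc.add (hpsd.smul hc')
      have hsq : ((Real.sqrt c : ℝ) : ℂ) * ((Real.sqrt c : ℝ) : ℂ) = (c : ℂ) := by
        rw [← Complex.ofReal_mul, Real.mul_self_sqrt hc.le]
      have e2 : X - (c : ℂ) • ((h x)⁻¹ * P x) + (c : ℂ) • ((h x)⁻¹ * P x -
          Matrix.vecMulVec (fun i => conj (((d : ℂ) • f) i)) ((d : ℂ) • f)) =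
          X - Matrix.vecMulVec (fun i => conj (((e : ℂ) • f) i)) ((e : ℂ) • f) := by
        have e3 : (c : ℂ) • Matrix.vecMulVec (fun i => conj (((d : ℂ) • f) i)) ((d : ℂ) • f) =
            Matrix.vecMulVec (fun i => conj (((e : ℂ) • f) i)) ((e : ℂ) • f) := by
          ext i j
          simp only [Matrix.smul_apply, Matrix.vecMulVec_apply, Pi.smul_apply, smul_eq_mul, map_mul,
            Complex.conj_ofReal, he, Complex.ofReal_mul]
          rw [← hsq]
          ring
        rw [smul_sub, e3]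
        abel
      rw [e2] at e1
      exact e1
    have e1 := Pool.Agent.Helper16.HS.SGNP.main_le R' h13 h24 hneg X ((e : ℂ) • f) hP1
    rw [hpair, hcr x hx, mul_zero] at e1
    have e2 : 0 ≤ (TT R' ((e : ℂ) • f) ((e : ℂ) • f) ((e : ℂ) • f) ((e : ℂ) • f)).re := e1
    rw [TT_smul1, TT_smul2, TT_smul3, TT_smul4, Complex.conj_ofReal] at e2
    have e3 : (e : ℂ) * ((e : ℂ) * ((e : ℂ) * ((e : ℂ) * TT R' f f f f))) =
        ((e ^ 4 : ℝ) : ℂ) * TT R' f f f f := by push_cast; ring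
    rw [e3, Complex.re_ofReal_mul] at e2
    have e4 : (TT R' f f f f).re ≤ 0 := hneg f
    have e5 : 0 ≤ (TT R' f f f f).re := by
      have : 0 < e ^ 4 := by positivity
      exact nonneg_of_mul_nonneg_right e2 this
    have e6 : conj (TT R' f f f f) = TT R' f f f f := by
      rw [hTT, hfP]
      exact TT_conj (R := R) c2 f
    have e7 : (TT R' f f f f).im = 0 := Complex.conj_eq_iff_im.1 e6
    exact Complex.ext (le_antisymm e4 e5) e7
  have hT := polar h13 h24 F hq
  have hz : ∀ a b c d : Fin n → ℂ, TT R (a ᵥ* P x) b c d = 0 := by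
    intro a b c d
    rw [fall, ← hT _ (hF a) _ (hF b) _ (hF c) _ (hF d), hTT, Matrix.vecMul_vecMul, hPP x hx]
  have hn1 : ∀ i j l m, ∑ p, P x i p * R p j l m = 0 := by
    intro i j l m
    have e1 := hz (Pi.single i 1) (Pi.single j 1) (Pi.single l 1) (Pi.single m 1)
    rw [← hTT, TT_single] at e1
    exact e1
  have hn3 : ∀ i j l m, ∑ p, P x l p * R i j p m = 0 := by
    intro i j l m
    have e1 := htc l i j m
    simp only [mul_sub, Finset.sum_sub_distrib] at e1
    rw [sub_eq_zero.1 e1]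
    exact hn1 l j i m
  refine ⟨hn1, hn3, ?_⟩
  ext l m
  rw [Matrix.mul_apply, Matrix.zero_apply]
  have hr : ∀ k l, rho h x k l = - ∑ i, ∑ j, (h x)⁻¹ j i * R i j k l := fun k l =>
    Pool.Agent.Helper89.GS.rho_eq hWI hM hC hW hpos hs hx k l
  have e1 : ∑ p, P x l p * rho h x p m = - ∑ i, ∑ j, (h x)⁻¹ j i * ∑ p, P x l p * R i j p m := by
    simp only [hr, mul_neg, Finset.sum_neg_distrib, Finset.mul_sum]
    congr 1
    rw [Finset.sum_comm]
    refine Finset.sum_congr rfl fun i _ => ?_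
    rw [Finset.sum_comm]
    refine Finset.sum_congr rfl fun j _ => Finset.sum_congr rfl fun p _ => ?_
    ring
  rw [e1]
  simp only [hn3, mul_zero, Finset.sum_const_zero, neg_zero]

end Pool.Agent.Helper20.TRB
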